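import Pool.Agent.TH764.Spl.Names

set_option autoImplicit false

open Cardinal Pool.Agent.Helper937.Spl Pool.Agent.Helper937.SplZ

universe u

namespace Pool.Agent.Results.MP_d41870_lc.AlephOneParts

/-- The forcing conditions: finite partial functions from triples of 0-1 sequences to ℕ (as
finite sets of pairs), ordered by extension (`ext p q`: q extends p). -/
abbrev Cond : Type := Fn ((ℕ → Bool) × (ℕ → Bool) × (ℕ → Bool))

/-- The poset is ccc: every antichain is countable. -/
def CCC : Prop :=
  ∀ A : Set Cond, (∀ a ∈ A, ∀ b ∈ A, a ≠ b → ¬ ∃ c, ext a c ∧ ext b c) → A.Countable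

/-- There are at most 2^ℵ₀ names for subsets of ℕ, up to equivalence: the names X x, for x in the
ground model set of 0-1 sequences, are all of them.  So in the extension 2^ℵ₀ is the size of
the set ℕ → Bool of the ground model. -/
def FewNames : Prop :=
  ∃ X : (ℕ → Bool) → ℕ → Set Cond, ∀ Y : ℕ → Set Cond, ∃ x, ∀ n r,
    Forces (X x n) r ↔ Forces (Y n) r

/-- Part 1 (forcing, CH in the ground model): every condition r that forces that H is a graph on L
with uncountable chromatic number and f is a proper colouring of H with colours in the ground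
model set ℕ → Bool, forces that H splits to D parts, for every nonempty D with #D ≤ ℵ₁.
Part 2 (ZFC): if 2^μ = μ^+ for all μ in [β, θ), no cardinal in (β, θ] is inaccessible, and the
chromatic number of G is above 2^β and at most 2^θ, then G splits to D parts for every nonempty D
with #D ≤ β^+.
Part 3 (ZFC): a graph with chromatic number at most ℵ₁ that splits to ℵ₀ parts splits to D
parts for every nonempty D with #D ≤ ℵ₁. -/
theorem result :
    (CCC ∧ FewNames ∧
      ((2 : Cardinal.{0}) ^ ℵ₀ = ℵ_ 1 →
        ∀ (L : Type) (H : L → L → Set Cond) (f : L → (ℕ → Bool) → Set Cond) (r : Cond),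
          IsGraph H r → IsFun f r → IsProper H f r → UncChrom H r →
          ∀ D : Type, Nonempty D → #D ≤ ℵ_ 1 →
            ∃ K : D → L → L → Set Cond, Splits H K r)) ∧
    (∀ (V : Type u) (G : SimpleGraph V) (β θ : Cardinal.{u}), ℵ₀ ≤ β →
      (∀ μ : Cardinal.{u}, β ≤ μ → μ < θ → 2 ^ μ = Order.succ μ) →
      (∀ μ : Cardinal.{u}, β < μ → μ ≤ θ → ¬ μ.IsInaccessible) →
      ¬ ColorableBy G (2 ^ β) → ColorableBy G (2 ^ θ) →
      ∀ D : Type u, Nonempty D → #D ≤ Order.succ β → SplitsTo G D) ∧
    (∀ (V : Type u) (G : SimpleGraph V), ColorableBy G (ℵ_ 1) → SplitsTo G ℕ →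
      ∀ D : Type, Nonempty D → #D ≤ ℵ_ 1 → SplitsTo G D) := by
  refine ⟨⟨fn_ccc _, few_names, ?_⟩, ?_, ?_⟩
  · intro hCH L H f r hG hf hP hU D hD hDc
    exact TH764.Spl.splits_ch hCH H f r hG hf hP hU D hD hDc
  · intro V G β θ h0 hgch hno hlow hup D hD hDc
    exact TH764.Spl.splits_gch G β θ h0 hgch hno hlow hup hD hDc
  · intro V G hG h D hD hDc
    exact TH764.Spl.splits_aleph_one G hG h D hD hDc

end Pool.Agent.Results.MP_d41870_lc.AlephOneParts
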